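import Mathlib

/-!
# The punctured binary Golay code `[21, 12, 5]` and a lattice

`A i (12 + j)`, `i < 12`, `j < 9`: nine columns of the symmetric generator of the extended binary
Golay code.  The code generated by the rows of `(1 | A)` has minimum distance `5` and contains its
dual.
-/

set_option autoImplicit false

namespace Pool.Agent.X50.GL
open Finset

/-- The rows of the matrix. -/
def rows : List (List ℤ) :=
  [[1, 1, 1, 1, 1, 1, 1, 1, 1],
   [0, 1, 1, 1, 0, 0, 0, 1, 0],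
   [1, 1, 1, 0, 0, 0, 1, 0, 1],
   [1, 1, 0, 0, 0, 1, 0, 1, 1],
   [1, 0, 0, 0, 1, 0, 1, 1, 0],
   [0, 0, 0, 1, 0, 1, 1, 0, 1],
   [0, 0, 1, 0, 1, 1, 0, 1, 1],
   [0, 1, 0, 1, 1, 0, 1, 1, 1],
   [1, 0, 1, 1, 0, 1, 1, 1, 0],
   [0, 1, 1, 0, 1, 1, 1, 0, 0],
   [1, 1, 0, 1, 1, 1, 0, 0, 0],
   [1, 0, 1, 1, 1, 0, 0, 0, 1]]

/-- The matrix, extended by zero (the columns are numbered `12, ..., 20`). -/
def A (i l : ℕ) : ℤ := if l < 12 then 0 else (rows.getD i []).getD (l - 12) 0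

/-- The linear map `z_l = y_l` for `l < 12`, `z_l = 2 y_l + ∑ A i l y_i` for `l ≥ 12`. -/
def Z {R : Type*} [CommRing R] (Y : ℕ → R) (l : ℕ) : R :=
  (if l < 12 then 1 else 2) * Y l + ∑ i ∈ range 12, (A i l : R) * Y i

theorem A_small {i l : ℕ} (hl : l < 12) : A i l = 0 := by simp [A, hl]

theorem A_big {i l : ℕ} (hl : 21 ≤ l) (hi : i < 12) : A i l = 0 := by
  have h9 : 9 ≤ l - 12 := by omega
  have hl' : ¬ l < 12 := by omega
  unfold A rows
  rw [if_neg hl']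
  interval_cases i <;> simp [List.getD, h9]

theorem A_row {i l : ℕ} (hi : 12 ≤ i) : A i l = 0 := by
  unfold A
  split_ifs
  · rfl
  · have : rows.getD i [] = [] := by
      rw [List.getD_eq_default]
      simpa [rows] using hi
    rw [this]
    simp

/-- Parity. -/
def bb (x : ℤ) : Bool := decide (x % 2 = 1)

theorem bb_add (x y : ℤ) : bb (x + y) = xor (bb x) (bb y) := by
  unfold bb
  rcases Int.emod_two_eq_zero_or_one x with h | h <;>
    rcases Int.emod_two_eq_zero_or_one y with h' | h' <;> simp [Int.add_emod, h, h']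

theorem bb_two_mul (x : ℤ) : bb (2 * x) = false := by
  unfold bb
  simp

theorem bb_zero : bb 0 = false := by decide

theorem bb_le (x : ℤ) : ((bb x).toNat : ℤ) ≤ x ^ 2 := by
  unfold bb
  by_cases h : x % 2 = 1
  · simp only [h, decide_true, Bool.toNat_true]
    have : x ≠ 0 := by rintro rfl; simp at h
    have := sq_pos_of_ne_zero this
    push_cast
    omega
  · simp only [h, decide_false, Bool.toNat_false]
    positivity

theorem Z12 (Y : ℕ → ℤ) : Z Y 12 = 2 * Y 12 + (Y 0 + Y 2 + Y 3 + Y 4 + Y 8 + Y 10 + Y 11) := by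
  have e : ∀ i, i < 12 → A i 12 = ([1, 0, 1, 1, 1, 0, 0, 0, 1, 0, 1, 1] : List ℤ).getD i 0 := by decide
  simp only [Z, Finset.sum_range_succ, Finset.sum_range_zero]
  rw [e 0 (by norm_num), e 1 (by norm_num), e 2 (by norm_num), e 3 (by norm_num), e 4 (by norm_num), e 5 (by norm_num), e 6 (by norm_num), e 7 (by norm_num), e 8 (by norm_num), e 9 (by norm_num), e 10 (by norm_num), e 11 (by norm_num)]
  norm_num

theorem Z13 (Y : ℕ → ℤ) : Z Y 13 = 2 * Y 13 + (Y 0 + Y 1 + Y 2 + Y 3 + Y 7 + Y 9 + Y 10) := by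
  have e : ∀ i, i < 12 → A i 13 = ([1, 1, 1, 1, 0, 0, 0, 1, 0, 1, 1, 0] : List ℤ).getD i 0 := by decide
  simp only [Z, Finset.sum_range_succ, Finset.sum_range_zero]
  rw [e 0 (by norm_num), e 1 (by norm_num), e 2 (by norm_num), e 3 (by norm_num), e 4 (by norm_num), e 5 (by norm_num), e 6 (by norm_num), e 7 (by norm_num), e 8 (by norm_num), e 9 (by norm_num), e 10 (by norm_num), e 11 (by norm_num)]
  norm_num

theorem Z14 (Y : ℕ → ℤ) : Z Y 14 = 2 * Y 14 + (Y 0 + Y 1 + Y 2 + Y 6 + Y 8 + Y 9 + Y 11) := by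
  have e : ∀ i, i < 12 → A i 14 = ([1, 1, 1, 0, 0, 0, 1, 0, 1, 1, 0, 1] : List ℤ).getD i 0 := by decide
  simp only [Z, Finset.sum_range_succ, Finset.sum_range_zero]
  rw [e 0 (by norm_num), e 1 (by norm_num), e 2 (by norm_num), e 3 (by norm_num), e 4 (by norm_num), e 5 (by norm_num), e 6 (by norm_num), e 7 (by norm_num), e 8 (by norm_num), e 9 (by norm_num), e 10 (by norm_num), e 11 (by norm_num)]
  norm_num

theorem Z15 (Y : ℕ → ℤ) : Z Y 15 = 2 * Y 15 + (Y 0 + Y 1 + Y 5 + Y 7 + Y 8 + Y 10 + Y 11) := by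
  have e : ∀ i, i < 12 → A i 15 = ([1, 1, 0, 0, 0, 1, 0, 1, 1, 0, 1, 1] : List ℤ).getD i 0 := by decide
  simp only [Z, Finset.sum_range_succ, Finset.sum_range_zero]
  rw [e 0 (by norm_num), e 1 (by norm_num), e 2 (by norm_num), e 3 (by norm_num), e 4 (by norm_num), e 5 (by norm_num), e 6 (by norm_num), e 7 (by norm_num), e 8 (by norm_num), e 9 (by norm_num), e 10 (by norm_num), e 11 (by norm_num)]
  norm_num

theorem Z16 (Y : ℕ → ℤ) : Z Y 16 = 2 * Y 16 + (Y 0 + Y 4 + Y 6 + Y 7 + Y 9 + Y 10 + Y 11) := by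
  have e : ∀ i, i < 12 → A i 16 = ([1, 0, 0, 0, 1, 0, 1, 1, 0, 1, 1, 1] : List ℤ).getD i 0 := by decide
  simp only [Z, Finset.sum_range_succ, Finset.sum_range_zero]
  rw [e 0 (by norm_num), e 1 (by norm_num), e 2 (by norm_num), e 3 (by norm_num), e 4 (by norm_num), e 5 (by norm_num), e 6 (by norm_num), e 7 (by norm_num), e 8 (by norm_num), e 9 (by norm_num), e 10 (by norm_num), e 11 (by norm_num)]
  norm_num

theorem Z17 (Y : ℕ → ℤ) : Z Y 17 = 2 * Y 17 + (Y 0 + Y 3 + Y 5 + Y 6 + Y 8 + Y 9 + Y 10) := by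
  have e : ∀ i, i < 12 → A i 17 = ([1, 0, 0, 1, 0, 1, 1, 0, 1, 1, 1, 0] : List ℤ).getD i 0 := by decide
  simp only [Z, Finset.sum_range_succ, Finset.sum_range_zero]
  rw [e 0 (by norm_num), e 1 (by norm_num), e 2 (by norm_num), e 3 (by norm_num), e 4 (by norm_num), e 5 (by norm_num), e 6 (by norm_num), e 7 (by norm_num), e 8 (by norm_num), e 9 (by norm_num), e 10 (by norm_num), e 11 (by norm_num)]
  norm_num

theorem Z18 (Y : ℕ → ℤ) : Z Y 18 = 2 * Y 18 + (Y 0 + Y 2 + Y 4 + Y 5 + Y 7 + Y 8 + Y 9) := by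
  have e : ∀ i, i < 12 → A i 18 = ([1, 0, 1, 0, 1, 1, 0, 1, 1, 1, 0, 0] : List ℤ).getD i 0 := by decide
  simp only [Z, Finset.sum_range_succ, Finset.sum_range_zero]
  rw [e 0 (by norm_num), e 1 (by norm_num), e 2 (by norm_num), e 3 (by norm_num), e 4 (by norm_num), e 5 (by norm_num), e 6 (by norm_num), e 7 (by norm_num), e 8 (by norm_num), e 9 (by norm_num), e 10 (by norm_num), e 11 (by norm_num)]
  norm_num

theorem Z19 (Y : ℕ → ℤ) : Z Y 19 = 2 * Y 19 + (Y 0 + Y 1 + Y 3 + Y 4 + Y 6 + Y 7 + Y 8) := by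
  have e : ∀ i, i < 12 → A i 19 = ([1, 1, 0, 1, 1, 0, 1, 1, 1, 0, 0, 0] : List ℤ).getD i 0 := by decide
  simp only [Z, Finset.sum_range_succ, Finset.sum_range_zero]
  rw [e 0 (by norm_num), e 1 (by norm_num), e 2 (by norm_num), e 3 (by norm_num), e 4 (by norm_num), e 5 (by norm_num), e 6 (by norm_num), e 7 (by norm_num), e 8 (by norm_num), e 9 (by norm_num), e 10 (by norm_num), e 11 (by norm_num)]
  norm_num

theorem Z20 (Y : ℕ → ℤ) : Z Y 20 = 2 * Y 20 + (Y 0 + Y 2 + Y 3 + Y 5 + Y 6 + Y 7 + Y 11) := by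
  have e : ∀ i, i < 12 → A i 20 = ([1, 0, 1, 1, 0, 1, 1, 1, 0, 0, 0, 1] : List ℤ).getD i 0 := by decide
  simp only [Z, Finset.sum_range_succ, Finset.sum_range_zero]
  rw [e 0 (by norm_num), e 1 (by norm_num), e 2 (by norm_num), e 3 (by norm_num), e 4 (by norm_num), e 5 (by norm_num), e 6 (by norm_num), e 7 (by norm_num), e 8 (by norm_num), e 9 (by norm_num), e 10 (by norm_num), e 11 (by norm_num)]
  norm_num

set_option maxRecDepth 100000 in
theorem table : ∀ b0 b1 b2 b3 b4 b5 b6 b7 b8 b9 b10 b11 : Bool,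
    (b0 || b1 || b2 || b3 || b4 || b5 || b6 || b7 || b8 || b9 || b10 || b11) = false ∨
    5 ≤ b0.toNat + b1.toNat + b2.toNat + b3.toNat + b4.toNat + b5.toNat + b6.toNat + b7.toNat + b8.toNat + b9.toNat + b10.toNat + b11.toNat + ((xor (xor (xor (xor (xor (xor b0 b2) b3) b4) b8) b10) b11)).toNat + ((xor (xor (xor (xor (xor (xor b0 b1) b2) b3) b7) b9) b10)).toNat + ((xor (xor (xor (xor (xor (xor b0 b1) b2) b6) b8) b9) b11)).toNat + ((xor (xor (xor (xor (xor (xor b0 b1) b5) b7) b8) b10) b11)).toNat + ((xor (xor (xor (xor (xor (xor b0 b4) b6) b7) b9) b10) b11)).toNat + ((xor (xor (xor (xor (xor (xor b0 b3) b5) b6) b8) b9) b10)).toNat + ((xor (xor (xor (xor (xor (xor b0 b2) b4) b5) b7) b8) b9)).toNat + ((xor (xor (xor (xor (xor (xor b0 b1) b3) b4) b6) b7) b8)).toNat + ((xor (xor (xor (xor (xor (xor b0 b2) b3) b5) b6) b7) b11)).toNat := by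
  decide +kernel

theorem five_le (Y : ℕ → ℤ) (h : ∃ i < 12, Y i % 2 = 1) : 5 ≤ ∑ l ∈ range 21, (Z Y l) ^ 2 := by
  have hZ : ∀ l < 12, Z Y l = Y l := by
    intro l hl
    simp [Z, hl, A_small hl]
  have hx : ∀ l, ((bb (Z Y l)).toNat : ℤ) ≤ (Z Y l) ^ 2 := fun l => bb_le _
  have hsum : ∑ l ∈ range 21, ((bb (Z Y l)).toNat : ℤ) ≤ ∑ l ∈ range 21, (Z Y l) ^ 2 :=
    sum_le_sum fun l _ => hx l
  refine le_trans ?_ hsum
  rw [← Nat.cast_sum]
  have ht := table (bb (Y 0)) (bb (Y 1)) (bb (Y 2)) (bb (Y 3)) (bb (Y 4)) (bb (Y 5)) (bb (Y 6)) (bb (Y 7)) (bb (Y 8)) (bb (Y 9)) (bb (Y 10)) (bb (Y 11))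
  have hcast : 5 ≤ ∑ l ∈ range 21, (bb (Z Y l)).toNat := by
    simp only [Finset.sum_range_succ, Finset.sum_range_zero]
    rw [hZ 0 (by norm_num), hZ 1 (by norm_num), hZ 2 (by norm_num), hZ 3 (by norm_num), hZ 4 (by norm_num), hZ 5 (by norm_num), hZ 6 (by norm_num), hZ 7 (by norm_num), hZ 8 (by norm_num), hZ 9 (by norm_num), hZ 10 (by norm_num), hZ 11 (by norm_num), Z12, Z13, Z14, Z15, Z16, Z17, Z18, Z19, Z20]
    simp only [bb_add, bb_two_mul, Bool.false_xor]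
    rcases ht with h0 | h5
    · exfalso
      obtain ⟨i, hi, hodd⟩ := h
      have hb : bb (Y i) = true := by simp [bb, hodd]
      simp only [Bool.or_eq_false_iff] at h0
      obtain ⟨⟨⟨⟨⟨⟨⟨⟨⟨⟨⟨g0, g1⟩, g2⟩, g3⟩, g4⟩, g5⟩, g6⟩, g7⟩, g8⟩, g9⟩, g10⟩, g11⟩ := h0
      interval_cases i
      exacts [Bool.noConfusion (g0.symm.trans hb), Bool.noConfusion (g1.symm.trans hb),
        Bool.noConfusion (g2.symm.trans hb), Bool.noConfusion (g3.symm.trans hb),
        Bool.noConfusion (g4.symm.trans hb), Bool.noConfusion (g5.symm.trans hb),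
        Bool.noConfusion (g6.symm.trans hb), Bool.noConfusion (g7.symm.trans hb),
        Bool.noConfusion (g8.symm.trans hb), Bool.noConfusion (g9.symm.trans hb),
        Bool.noConfusion (g10.symm.trans hb), Bool.noConfusion (g11.symm.trans hb)]
    · rw [zero_add]
      exact h5
  exact_mod_cast hcast

end Pool.Agent.X50.GL
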